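import Mathlib

set_option autoImplicit false

namespace Pool.Agent.X109.BT

abbrev V := List Bool

/-- swap of the two children of `v0` -/
def sw (v0 : V) : V → V
  | [] => []
  | b :: v => if v = v0 then (!b) :: v else b :: sw v0 v

theorem sw_length (v0 v : V) : (sw v0 v).length = v.length := by
  induction v with
  | nil => rfl
  | cons b v ih => rw [sw]; split_ifs <;> simp [ih]

theorem sw_short (v0 v : V) (h : v.length ≤ v0.length) : sw v0 v = v := by
  induction v with
  | nil => rfl
  | cons b v ih =>
    simp only [List.length_cons] at h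
    rw [sw, if_neg (by rintro rfl; omega), ih (by omega)]

theorem sw_tail (v0 v : V) : (sw v0 v).tail = sw v0 v.tail := by
  cases v with
  | nil => rfl
  | cons b v =>
    rw [sw]
    split_ifs with h
    · subst h
      simp [sw_short v v le_rfl]
    · rfl

theorem sw_sw (v0 v : V) : sw v0 (sw v0 v) = v := by
  induction v with
  | nil => rfl
  | cons b v ih =>
    rw [sw]
    split_ifs with h
    · subst h
      rw [sw, if_pos rfl, Bool.not_not]
    · rw [sw, if_neg, ih]
      intro h2
      rw [h2] at ih
      rw [sw_short v0 v0 le_rfl] at ih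
      exact h ih.symm

/-- the swap as a permutation -/
def swP (v0 : V) : Equiv.Perm V := ⟨sw v0, sw v0, sw_sw v0, sw_sw v0⟩

theorem gi (g : Equiv.Perm V) (v : V) : g (g⁻¹ v) = v := g.apply_symm_apply v

/-- finitary automorphisms of the binary tree -/
def G : Subgroup (Equiv.Perm V) where
  carrier := {g | (∀ v, (g v).length = v.length) ∧ (∀ v, (g v).tail = g v.tail) ∧
    ∃ N, ∀ v : V, N ≤ v.length → ∀ b, g (b :: v) = b :: g v}
  mul_mem' := by
    rintro g h ⟨g1, g2, Ng, g3⟩ ⟨h1, h2, Nh, h3⟩
    refine ⟨fun v => ?_, fun v => ?_, max Ng Nh, fun v hv b => ?_⟩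
    · rw [Equiv.Perm.mul_apply, g1, h1]
    · rw [Equiv.Perm.mul_apply, Equiv.Perm.mul_apply, g2, h2]
    · rw [Equiv.Perm.mul_apply, Equiv.Perm.mul_apply, h3 v (by omega), g3 _ (by rw [h1]; omega)]
  one_mem' := ⟨fun _ => rfl, fun _ => rfl, 0, fun _ _ _ => rfl⟩
  inv_mem' := by
    rintro g ⟨g1, g2, N, g3⟩
    have h1 : ∀ v, (g⁻¹ v).length = v.length := by
      intro v
      rw [← g1 (g⁻¹ v), gi]
    refine ⟨h1, fun v => ?_, N, fun v hv b => ?_⟩
    · apply g.injective
      rw [← g2, gi, gi]
    · apply g.injective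
      rw [gi, g3 _ (by rw [h1]; exact hv), gi]

theorem len (g : G) (v : V) : ((g : Equiv.Perm V) v).length = v.length := g.2.1 v
theorem tl (g : G) (v : V) : ((g : Equiv.Perm V) v).tail = (g : Equiv.Perm V) v.tail := g.2.2.1 v

theorem swP_mem (v0 : V) : swP v0 ∈ G := by
  refine ⟨sw_length v0, sw_tail v0, v0.length + 1, fun v hv b => ?_⟩
  change sw v0 (b :: v) = b :: sw v0 v
  rw [sw, if_neg]
  rintro rfl
  omega

/-- the swap as an element of `G` -/
def s (v0 : V) : G := ⟨swP v0, swP_mem v0⟩

theorem s_apply (v0 v : V) : (s v0 : Equiv.Perm V) v = sw v0 v := rfl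

theorem transitive (v w : V) (h : v.length = w.length) : ∃ g : G, (g : Equiv.Perm V) v = w := by
  induction v generalizing w with
  | nil =>
    refine ⟨1, ?_⟩
    have : w = [] := List.length_eq_zero_iff.1 h.symm
    rw [this]; rfl
  | cons b v ih =>
    cases w with
    | nil => simp at h
    | cons c w =>
      obtain ⟨g, hg⟩ := ih w (by simpa using h)
      obtain ⟨d, hd⟩ : ∃ d, (g : Equiv.Perm V) (b :: v) = d :: w := by
        have h1 := tl g (b :: v)
        have h2 := len g (b :: v)
        rw [List.tail_cons, hg] at h1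
        cases hx : (g : Equiv.Perm V) (b :: v) with
        | nil => rw [hx] at h2; simp at h2
        | cons d u =>
          rw [hx] at h1
          exact ⟨d, by rw [← h1]; rfl⟩
      by_cases hdc : d = c
      · exact ⟨g, by rw [hd, hdc]⟩
      · refine ⟨s w * g, ?_⟩
        rw [Subgroup.coe_mul, Equiv.Perm.mul_apply, hd, s_apply, sw, if_pos rfl]
        congr 1
        cases d <;> cases c <;> simp_all

/-- the action on level `m` -/
def lv (m : ℕ) : G →* Equiv.Perm {v : V // v.length = m} where
  toFun g := (g : Equiv.Perm V).subtypePerm (fun v => by rw [len])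
  map_one' := by ext; rfl
  map_mul' g h := by ext; rfl

theorem lv_apply (m : ℕ) (g : G) (v : {v : V // v.length = m}) : ((lv m g v : {v : V // v.length = m}) : V) = (g : Equiv.Perm V) v := rfl

noncomputable instance (m : ℕ) : Fintype {v : V // v.length = m} := inferInstanceAs (Fintype (List.Vector Bool m))

/-- the sign of the action on level `m` -/
noncomputable def sg (m : ℕ) : G →* ℤˣ := Equiv.Perm.sign.comp (lv m)

/-- level `m + 1` -/
def eqv (m : ℕ) : {v : V // v.length = m + 1} ≃ Bool × {v : V // v.length = m} where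
  toFun v := (v.1.headD false, ⟨v.1.tail, by rw [List.length_tail, v.2]; rfl⟩)
  invFun p := ⟨p.1 :: p.2.1, by rw [List.length_cons, p.2.2]⟩
  left_inv := by
    rintro ⟨v, hv⟩
    cases v with
    | nil => simp at hv
    | cons b v => rfl
  right_inv := by
    rintro ⟨b, v, hv⟩
    rfl

theorem sg_rigid (m : ℕ) (g : G) (h : ∀ v : V, v.length = m → ∀ b, (g : Equiv.Perm V) (b :: v) = b :: (g : Equiv.Perm V) v) :
    sg (m + 1) g = 1 := by
  have e : lv (m + 1) g = (eqv m).symm.permCongr (Equiv.prodCongrRight (fun _ : Bool => lv m g)) := by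
    ext1 v
    apply Subtype.ext
    obtain ⟨v, hv⟩ := v
    cases v with
    | nil => simp at hv
    | cons b v =>
      have hv' : v.length = m := by simpa using hv
      rw [lv_apply, h v hv']
      rfl
  change Equiv.Perm.sign (lv (m + 1) g) = 1
  rw [e, Equiv.Perm.sign_permCongr, Equiv.Perm.sign_prodCongrRight]
  simp

theorem sg_fin (g : G) : ∃ N, ∀ m, N ≤ m → sg m g = 1 := by
  obtain ⟨N, hN⟩ := g.2.2.2
  refine ⟨N + 1, fun m hm => ?_⟩
  obtain ⟨m, rfl⟩ : ∃ k, m = k + 1 := ⟨m - 1, by omega⟩
  exact sg_rigid m g (fun v hv b => hN v (by omega) b)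

theorem sg_s (v0 : V) (m : ℕ) : sg m (s v0) = if m = v0.length + 1 then -1 else 1 := by
  split_ifs with h
  · subst h
    have e : lv (v0.length + 1) (s v0) = Equiv.swap ⟨false :: v0, by simp⟩ ⟨true :: v0, by simp⟩ := by
      ext1 v
      apply Subtype.ext
      obtain ⟨v, hv⟩ := v
      cases v with
      | nil => simp at hv
      | cons b v =>
        rw [lv_apply, s_apply, sw]
        split_ifs with h
        · subst h
          cases b
          · rw [Equiv.swap_apply_left]; rfl
          · rw [Equiv.swap_apply_right]; rfl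
        · rw [Equiv.swap_apply_of_ne_of_ne]
          · rw [sw_short]
            simp at hv
            omega
          · simp [h]
          · simp [h]
    change Equiv.Perm.sign (lv (v0.length + 1) (s v0)) = -1
    rw [e, Equiv.Perm.sign_swap]
    simp
  · rcases Nat.lt_or_ge v0.length m with h1 | h1
    · obtain ⟨m, rfl⟩ : ∃ k, m = k + 1 := ⟨m - 1, by omega⟩
      apply sg_rigid
      intro v hv b
      rw [s_apply, s_apply, sw, if_neg]
      rintro rfl
      omega
    · have e : lv m (s v0) = 1 := by
        ext1 v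
        apply Subtype.ext
        rw [lv_apply, s_apply, sw_short _ _ (by rw [v.2]; exact h1)]
        rfl
      change Equiv.Perm.sign (lv m (s v0)) = 1
      rw [e, map_one]

theorem supp_fin (a : ℕ) (g : G) :
    (Function.mulSupport fun m => if 2 ^ a ∣ m then sg m g else 1).Finite := by
  obtain ⟨N, hN⟩ := sg_fin g
  apply (Set.finite_lt_nat N).subset
  intro m hm
  rw [Function.mem_mulSupport] at hm
  by_contra hcon
  apply hm
  rw [Set.mem_ofPred_eq, not_lt] at hcon
  rw [hN m hcon]
  simp

/-- product of the signs over the levels divisible by `2 ^ a` -/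
noncomputable def chi (a : ℕ) : G →* ℤˣ where
  toFun g := ∏ᶠ m, (if 2 ^ a ∣ m then sg m g else 1)
  map_one' := by simp
  map_mul' g h := by
    rw [← finprod_mul_distrib (supp_fin a g) (supp_fin a h)]
    apply finprod_congr
    intro m
    split_ifs <;> simp

theorem chi_s (a : ℕ) (v0 : V) : chi a (s v0) = if 2 ^ a ∣ v0.length + 1 then -1 else 1 := by
  change ∏ᶠ m, (if 2 ^ a ∣ m then sg m (s v0) else 1) = _
  rw [finprod_eq_single _ (v0.length + 1)]
  · rw [sg_s, if_pos rfl]
  · intro m hm
    rw [sg_s, if_neg hm]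
    simp

/-- the subgroups -/
noncomputable def M (a i : ℕ) : Subgroup G := (lv i).ker ⊓ (chi a).ker

theorem lv_anti (i j : ℕ) (h : i ≤ j) : (lv j).ker ≤ (lv i).ker := by
  induction h with
  | refl => exact le_rfl
  | step h ih =>
    refine le_trans ?_ ih
    intro g hg
    rw [MonoidHom.mem_ker] at hg ⊢
    ext1 v
    apply Subtype.ext
    obtain ⟨v, hv⟩ := v
    rw [lv_apply]
    have h1 := congrArg (fun p => ((p ⟨false :: v, by simp [hv]⟩ : {v : V // _}) : V).tail) hg
    simp only [lv_apply] at h1
    rw [tl] at h1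
    simpa using h1

end Pool.Agent.X109.BT
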