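import Mathlib
import Pool.Agent.X109.BT.A

set_option autoImplicit false

namespace Pool.Agent.X109.BT

theorem iter_tail (k : ℕ) (w : V) : (List.tail^[k]) w = w.drop k := by
  induction k generalizing w with
  | zero => simp
  | succ k ih =>
    rw [Function.iterate_succ_apply, ih]
    cases w <;> simp

/-- the action of `g` restricted to the subtree at `v` -/
def rs (g : G) (v : V) (hv : (g : Equiv.Perm V) v = v) : Equiv.Perm V :=
  Equiv.Perm.ofSubtype ((g : Equiv.Perm V).subtypePerm (p := fun w => v <:+ w) (by
    intro w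
    have key : ∀ w : V, v <:+ w ↔ w.drop (w.length - v.length) = v ∧ v.length ≤ w.length := by
      intro w
      constructor
      · intro h
        exact ⟨(List.suffix_iff_eq_drop.1 h).symm, h.length_le⟩
      · rintro ⟨h, _⟩
        exact List.suffix_iff_eq_drop.2 h.symm
    have hd : ∀ (k : ℕ) (w : V), ((g : Equiv.Perm V) w).drop k = (g : Equiv.Perm V) (w.drop k) := by
      intro k
      induction k with
      | zero => intro w; simp
      | succ k ih =>
        intro w
        rw [← List.drop_drop, ih, List.drop_one, tl, List.tail_drop]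
    rw [key, key, len, hd]
    constructor
    · rintro ⟨h1, h2⟩
      refine ⟨?_, h2⟩
      apply (g : Equiv.Perm V).injective
      rw [h1, hv]
    · rintro ⟨h1, h2⟩
      exact ⟨by rw [h1, hv], h2⟩))

theorem rs_in (g : G) (v : V) (hv : (g : Equiv.Perm V) v = v) (w : V) (h : v <:+ w) :
    rs g v hv w = (g : Equiv.Perm V) w := by
  unfold rs
  rw [Equiv.Perm.ofSubtype_apply_of_mem _ h]
  rfl

theorem rs_out (g : G) (v : V) (hv : (g : Equiv.Perm V) v = v) (w : V) (h : ¬ v <:+ w) :
    rs g v hv w = w := by
  unfold rs
  rw [Equiv.Perm.ofSubtype_apply_of_not_mem _ h]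

theorem suffix_cons_iff (v w : V) (b : Bool) : v <:+ b :: w ↔ v = b :: w ∨ v <:+ w := List.suffix_cons_iff

theorem rs_mem (g : G) (v : V) (hv : (g : Equiv.Perm V) v = v) : rs g v hv ∈ G := by
  obtain ⟨N, hN⟩ := g.2.2.2
  refine ⟨fun w => ?_, fun w => ?_, max N v.length, fun w hw b => ?_⟩
  · by_cases h : v <:+ w
    · rw [rs_in _ _ _ _ h, len]
    · rw [rs_out _ _ _ _ h]
  · by_cases h : v <:+ w
    · rw [rs_in _ _ _ _ h, tl]
      by_cases h2 : v <:+ w.tail
      · rw [rs_in _ _ _ _ h2]
      · rw [rs_out _ _ _ _ h2]
        cases w with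
        | nil =>
          simp only [List.tail_nil]
          exact List.length_eq_zero_iff.1 (len g [])
        | cons b w =>
          simp only [List.tail_cons] at h2 ⊢
          rcases List.suffix_cons_iff.1 h with h3 | h3
          · have := tl g (b :: w)
            rw [← h3, hv] at this
            rw [h3] at this
            simpa using this.symm
          · exact absurd h3 h2
    · rw [rs_out _ _ _ _ h, rs_out]
      cases w with
      | nil => simpa using h
      | cons b w =>
        intro h3
        exact h (List.suffix_cons_iff.2 (Or.inr h3))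
  · by_cases h : v <:+ w
    · rw [rs_in _ _ _ _ h, rs_in _ _ _ _ (List.suffix_cons_iff.2 (Or.inr h))]
      exact hN w (by omega) b
    · rw [rs_out _ _ _ _ h, rs_out]
      intro h3
      rcases List.suffix_cons_iff.1 h3 with h4 | h4
      · have := congrArg List.length h4
        simp only [List.length_cons] at this
        omega
      · exact h h4

/-- generators of the rigid stabilizers -/
def gens (n : ℕ) : Set G := {g : G | ∃ v : V, v.length = n ∧ ∀ w : V, (∀ k : ℕ, List.tail^[k] w ≠ v) → (g : Equiv.Perm V) w = w}

theorem rs_gens (g : G) (v : V) (hv : (g : Equiv.Perm V) v = v) : (⟨rs g v hv, rs_mem g v hv⟩ : G) ∈ gens v.length := by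
  refine ⟨v, rfl, fun w hw => ?_⟩
  refine rs_out g v hv w ?_
  intro h
  apply hw (w.length - v.length)
  rw [iter_tail]
  exact (List.suffix_iff_eq_drop.1 h).symm

/-- the level stabilizer is generated by elements of the rigid stabilizers -/
theorem stab_le (n : ℕ) : (lv n).ker ≤ Subgroup.closure (gens n) := by
  have key : ∀ (S : Finset V), (∀ v ∈ S, v.length = n) → ∀ g : G, g ∈ (lv n).ker →
      (∀ w : V, (∀ v ∈ S, ¬ v <:+ w) → (g : Equiv.Perm V) w = w) → g ∈ Subgroup.closure (gens n) := by
    intro S
    induction S using Finset.induction_on with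
    | empty =>
      intro _ g _ h
      have : g = 1 := by
        apply Subtype.ext
        ext1 w
        exact h w (by simp)
      rw [this]
      exact Subgroup.one_mem _
    | insert v S hvS ih =>
      intro hS g hg h
      have hfix : ∀ g : G, g ∈ (lv n).ker → ∀ v : V, v.length = n → (g : Equiv.Perm V) v = v := by
        intro g hg v hv
        rw [MonoidHom.mem_ker] at hg
        have := congrArg (fun p => ((p ⟨v, hv⟩ : {v : V // _}) : V)) hg
        simpa [lv_apply] using this
      have hvn : v.length = n := hS v (Finset.mem_insert_self _ _)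
      have hv := hfix g hg v hvn
      set r : G := ⟨rs g v hv, rs_mem g v hv⟩ with hr
      have hr1 : r ∈ gens n := by rw [← hvn]; exact rs_gens g v hv
      have hrapp : ∀ w, (r : Equiv.Perm V) w = rs g v hv w := fun w => rfl
      have hrker : r ∈ (lv n).ker := by
        rw [MonoidHom.mem_ker]
        ext1 w
        apply Subtype.ext
        obtain ⟨w, hw⟩ := w
        rw [lv_apply, hrapp]
        by_cases h1 : v <:+ w
        · rw [rs_in _ _ _ _ h1]
          exact hfix g hg w hw
        · rw [rs_out _ _ _ _ h1]; rfl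
      have hq : r⁻¹ * g ∈ Subgroup.closure (gens n) := by
        apply ih (fun v hv => hS v (Finset.mem_insert_of_mem hv))
        · exact Subgroup.mul_mem _ (Subgroup.inv_mem _ hrker) hg
        · intro w hw
          rw [Subgroup.coe_mul, Equiv.Perm.mul_apply]
          have hrw : (r : Equiv.Perm V) w = (g : Equiv.Perm V) w := by
            rw [hrapp]
            by_cases h1 : v <:+ w
            · rw [rs_in _ _ _ _ h1]
            · rw [rs_out _ _ _ _ h1]
              symm
              apply h
              intro v' hv'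
              rcases Finset.mem_insert.1 hv' with rfl | h2
              · exact h1
              · exact hw v' h2
          rw [← hrw]
          exact (r : Equiv.Perm V).symm_apply_apply w
      have : g = r * (r⁻¹ * g) := by group
      rw [this]
      exact Subgroup.mul_mem _ (Subgroup.subset_closure hr1) hq
  intro g hg
  let S : Finset V := (Finset.univ : Finset {v : V // v.length = n}).map ⟨Subtype.val, Subtype.val_injective⟩
  apply key S _ g hg
  · intro w hw
    -- `w` is shorter than `n`
    have hlt : w.length < n := by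
      by_contra hcon
      push Not at hcon
      apply hw (w.drop (w.length - n))
      · simp only [S, Finset.mem_map, Finset.mem_univ, true_and, Function.Embedding.coeFn_mk]
        exact ⟨⟨w.drop (w.length - n), by rw [List.length_drop]; omega⟩, rfl⟩
      · exact List.drop_suffix _ _
    have := lv_anti w.length n hlt.le hg
    rw [MonoidHom.mem_ker] at this
    have := congrArg (fun p => ((p ⟨w, rfl⟩ : {v : V // _}) : V)) this
    simpa [lv_apply] using this
  · intro v hv
    simp only [S, Finset.mem_map, Finset.mem_univ, true_and, Function.Embedding.coeFn_mk] at hv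
    obtain ⟨v', rfl⟩ := hv
    exact v'.2

theorem main :
    ∃ (G : Type) (_ : Group G) (V : Type) (_ : MulAction G V) (lev : V → ℕ) (par : V → V),
      (∀ v w : V, lev v = 0 → lev w = 0 → v = w) ∧
      (∃ v : V, lev v = 0) ∧
      (∀ w : V, lev w = 0 → par w = w) ∧
      (∀ w : V, lev w ≠ 0 → lev (par w) + 1 = lev w) ∧
      (∀ n : ℕ, {v : V | lev v = n}.Finite) ∧
      (∀ v : V, ∃ w₁ w₂ : V, w₁ ≠ w₂ ∧ par w₁ = v ∧ par w₂ = v ∧
          lev w₁ = lev v + 1 ∧ lev w₂ = lev v + 1) ∧
      (∀ (g : G) (w : V), lev (g • w) = lev w ∧ par (g • w) = g • par w) ∧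
      (∀ g : G, (∀ v : V, g • v = v) → g = 1) ∧
      (∀ v w : V, lev v = lev w → ∃ g : G, g • v = w) ∧
      (∀ n : ℕ, (Subgroup.closure {g : G | ∃ v : V, lev v = n ∧
          ∀ w : V, (∀ k : ℕ, par^[k] w ≠ v) → g • w = w}).FiniteIndex) ∧
      ∃ M : ℕ → ℕ → Subgroup G,
        (∀ a : ℕ, Antitone (M a) ∧ (∀ i : ℕ, (M a i).Normal ∧ (M a i).FiniteIndex) ∧
            (⨅ i : ℕ, M a i) = ⊥) ∧
        (∀ a b : ℕ, a ≠ b →
            ¬ ((∀ i : ℕ, ∃ j : ℕ, M b j ≤ M a i) ∧ (∀ i : ℕ, ∃ j : ℕ, M a j ≤ M b i))) := by
  refine ⟨G, inferInstance, V, inferInstance, List.length, List.tail, ?_, ⟨[], rfl⟩, ?_, ?_, ?_, ?_, ?_, ?_, ?_, ?_, M, ?_, ?_⟩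
  · intro v w hv hw
    rw [List.length_eq_zero_iff.1 hv, List.length_eq_zero_iff.1 hw]
  · intro w hw
    rw [List.length_eq_zero_iff.1 hw]; rfl
  · intro w hw
    rw [List.length_tail]
    omega
  · intro n
    have : Finite {v : V // v.length = n} := inferInstance
    exact Set.finite_coe_iff.1 this
  · intro v
    exact ⟨false :: v, true :: v, by simp, rfl, rfl, rfl, rfl⟩
  · intro g w
    exact ⟨len g w, tl g w⟩
  · intro g h
    apply Subtype.ext
    ext1 v
    exact h v
  · intro v w h
    exact transitive v w h
  · intro n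
    have : (lv n).ker.FiniteIndex := inferInstance
    exact Subgroup.finiteIndex_of_le (stab_le n)
  · intro a
    refine ⟨?_, ?_, ?_⟩
    · intro i j hij
      exact inf_le_inf_right _ (lv_anti i j hij)
    · intro i
      refine ⟨?_, ?_⟩
      · unfold M; infer_instance
      · unfold M; infer_instance
    · rw [eq_bot_iff]
      intro g hg
      rw [Subgroup.mem_bot]
      apply Subtype.ext
      ext1 v
      rw [Subgroup.mem_iInf] at hg
      have h1 : lv v.length g = 1 := MonoidHom.mem_ker.1 (Subgroup.mem_inf.1 (hg v.length)).1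
      have := congrArg (fun p => ((p ⟨v, rfl⟩ : {v : V // _}) : V)) h1
      simpa [lv_apply] using this
  · have key : ∀ a b : ℕ, a < b → ¬ ∃ j, M b j ≤ M a 0 := by
      rintro a b hab ⟨j, hj⟩
      set n := 2 ^ a * (2 * j + 1) - 1 with hn
      have hpos : 0 < 2 ^ a := by positivity
      have hge : 2 * j + 1 ≤ 2 ^ a * (2 * j + 1) := Nat.le_mul_of_pos_left _ hpos
      have hn1 : n + 1 = 2 ^ a * (2 * j + 1) := by omega
      set v0 : V := List.replicate n false with hv0
      have hlen : v0.length = n := by simp [hv0]
      have h1 : s v0 ∈ M b j := by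
        refine Subgroup.mem_inf.2 ⟨MonoidHom.mem_ker.2 ?_, MonoidHom.mem_ker.2 ?_⟩
        · ext1 v
          apply Subtype.ext
          rw [lv_apply, s_apply, sw_short _ _ (by rw [v.2]; omega)]
          rfl
        · rw [chi_s, if_neg]
          rw [hlen, hn1]
          intro hd
          have h2 : 2 ^ (a + 1) ∣ 2 ^ a * (2 * j + 1) := (Nat.pow_dvd_pow 2 hab).trans hd
          rw [pow_succ] at h2
          have h3 := Nat.dvd_of_mul_dvd_mul_left hpos h2
          omega
      have h2 := MonoidHom.mem_ker.1 (Subgroup.mem_inf.1 (hj h1)).2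
      rw [chi_s, if_pos] at h2
      · exact absurd h2 (by decide)
      · rw [hlen, hn1]
        exact Dvd.intro _ rfl
    rintro a b hab ⟨h1, h2⟩
    rcases Nat.lt_or_gt_of_ne hab with h | h
    · exact key a b h (h1 0)
    · exact key b a h (h2 0)

end Pool.Agent.X109.BT
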